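import Pool.Agent.H84.GL.Basic

/-!
# Geometric law: tilting, generating function, tail
-/

open MeasureTheory ProbabilityTheory
open scoped ENNReal

namespace Pool.Agent.H20.GL.GEO

open Pool.Agent.H84.GL Pool.Agent.H99.NS

/-- Integral against the geometric law. -/
theorem lintegral_geo (a : ℝ) (h0 : 0 ≤ a) (h1 : a < 1) (f : ℕ → ℝ≥0∞) :
    ∫⁻ k, f k ∂(geo a) = ∑' k : ℕ, ENNReal.ofReal ((1 - a) * a ^ k) * f k := by
  unfold geo
  rw [if_pos ⟨h0, h1⟩, lintegral_sum_measure]
  refine tsum_congr fun k => ?_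
  rw [lintegral_smul_measure, lintegral_dirac' _ (measurable_from_top)]
  rfl

theorem pf_GEO : T_GEO := by
  intro a b ha ha1 hb hb1 f
  rw [lintegral_geo a ha.le ha1, lintegral_geo b hb.le hb1, ← ENNReal.tsum_mul_left]
  refine tsum_congr fun k => ?_
  rw [← mul_assoc, ← mul_assoc, ← ENNReal.ofReal_mul (by
      have : 0 < 1 - a := by linarith
      positivity), ← ENNReal.ofReal_mul (by
      have : 0 < 1 - a := by linarith
      have : 0 < 1 - b := by linarith
      positivity)]
  congr 2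
  have h2 : (1 : ℝ) - b ≠ 0 := by linarith
  have h3 : a ≠ 0 := ha.ne'
  rw [div_pow]
  field_simp

theorem pf_GEM : T_GEM := by
  intro a r ha ha1 hr hra
  rw [lintegral_geo a ha ha1]
  have e : ∀ k : ℕ, ENNReal.ofReal ((1 - a) * a ^ k) * ENNReal.ofReal (r ^ k) =
      ENNReal.ofReal ((1 - a) * (r * a) ^ k) := by
    intro k
    have h1 : (0 : ℝ) ≤ 1 - a := by linarith
    rw [← ENNReal.ofReal_mul (by positivity)]
    congr 1
    rw [mul_pow]; ring
  simp only [e]
  have h1 : (0 : ℝ) ≤ 1 - a := by linarith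
  rw [← ENNReal.ofReal_tsum_of_nonneg (fun k => by positivity)
    ((summable_geometric_of_lt_one (by positivity) hra).mul_left _), tsum_mul_left,
    tsum_geometric_of_lt_one (by positivity) hra]
  rfl

theorem tail_nat (a : ℝ) (ha : 0 ≤ a) (ha1 : a < 1) (m : ℕ) :
    geo a {k : ℕ | m ≤ k} = ENNReal.ofReal (a ^ m) := by
  have h1 : (0 : ℝ) ≤ 1 - a := by linarith
  have hm : MeasurableSet {k : ℕ | m ≤ k} := MeasurableSet.of_discrete
  rw [← lintegral_indicator_one hm, lintegral_geo a ha ha1]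
  have e : ∀ k : ℕ, ENNReal.ofReal ((1 - a) * a ^ k) * ({k : ℕ | m ≤ k}.indicator 1 k : ℝ≥0∞) =
      if m ≤ k then ENNReal.ofReal ((1 - a) * a ^ k) else 0 := by
    intro k
    by_cases h : m ≤ k
    · rw [Set.indicator_of_mem (by exact h)]; simp [h]
    · rw [Set.indicator_of_notMem (by exact h)]; simp [h]
  simp only [e]
  rw [← Summable.sum_add_tsum_nat_add' (f := fun k : ℕ => if m ≤ k then ENNReal.ofReal ((1 - a) * a ^ k) else 0)
    (k := m) ENNReal.summable]
  have z : ∑ i ∈ Finset.range m, (if m ≤ i then ENNReal.ofReal ((1 - a) * a ^ i) else 0) = 0 := by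
    refine Finset.sum_eq_zero fun i hi => ?_
    have := Finset.mem_range.1 hi
    rw [if_neg (by omega)]
  rw [z, zero_add]
  have e2 : ∀ i : ℕ, (if m ≤ i + m then ENNReal.ofReal ((1 - a) * a ^ (i + m)) else 0) =
      ENNReal.ofReal ((1 - a) * a ^ m * a ^ i) := by
    intro i
    rw [if_pos (by omega)]
    congr 1
    rw [pow_add]; ring
  simp only [e2]
  rw [← ENNReal.ofReal_tsum_of_nonneg (fun k => by positivity)
    ((summable_geometric_of_lt_one (by positivity) ha1).mul_left _), tsum_mul_left,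
    tsum_geometric_of_lt_one (by positivity) ha1]
  congr 1
  have : (1 : ℝ) - a ≠ 0 := by linarith
  field_simp

theorem pf_GET : T_GET := by
  intro a x ha ha1
  have hl : Real.log a < 0 := Real.log_neg ha ha1
  by_cases hx : x ≤ 0
  · refine le_trans prob_le_one ?_
    rw [← ENNReal.ofReal_one]
    apply ENNReal.ofReal_le_ofReal
    rw [← Real.exp_zero]
    exact Real.exp_le_exp.2 (mul_nonneg_of_nonpos_of_nonpos hx hl.le)
  · have hsub : {k : ℕ | x ≤ (k : ℝ)} ⊆ {k : ℕ | ⌈x⌉₊ ≤ k} := by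
      intro k hk
      exact Nat.ceil_le.2 hk
    refine le_trans (measure_mono hsub) ?_
    rw [tail_nat a ha.le ha1]
    apply ENNReal.ofReal_le_ofReal
    rw [← Real.rpow_natCast, Real.rpow_def_of_pos ha]
    apply Real.exp_le_exp.2
    rw [mul_comm]
    exact mul_le_mul_of_nonpos_right (Nat.le_ceil x) hl.le

end Pool.Agent.H20.GL.GEO
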