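import Pool.Agent.H84.GL.Basic

/-!
# Comparison of the shape function with the parabola
-/

namespace Pool.Agent.H20.GL.GGP

open Pool.Agent.H84.GL Pool.Agent.H99.NS

theorem sq_le (t : ℝ) (h0 : 0 ≤ t) (h1 : t ≤ 1) : (1 - t / 2 - t ^ 2 / 2) ^ 2 ≤ 1 - t := by
  have h2 : t ^ 2 * (t * 2 + t ^ 2 - 3) ≤ 0 := by
    apply mul_nonpos_of_nonneg_of_nonpos (sq_nonneg t)
    nlinarith
  nlinarith

theorem pf_GGP : T_GGP := by
  intro q hq hq1
  set r := √q with hr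
  have hr0 : 0 < r := Real.sqrt_pos.2 hq
  have hr1 : r < 1 := by
    rw [hr, Real.sqrt_lt' one_pos]; simpa using hq1
  have hrr : r ^ 2 = q := Real.sq_sqrt hq.le
  have h1q : 0 < 1 - q := by linarith
  refine ⟨r / (2 * (1 - q)), by positivity, ?_⟩
  intro a b hab hD
  have hN : (1 : ℝ) ≤ (a : ℝ) + b := by exact_mod_cast hab
  have hN0 : (0 : ℝ) < (a : ℝ) + b := by linarith
  have ha : (0 : ℝ) ≤ a := Nat.cast_nonneg a
  have hb : (0 : ℝ) ≤ b := Nat.cast_nonneg b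
  set N : ℝ := (a : ℝ) + b with hNd
  set D : ℝ := (a : ℝ) - b with hDd
  have hab4 : 4 * ((a : ℝ) * b) = N ^ 2 - D ^ 2 := by rw [hNd, hDd]; ring
  have hDN : D ^ 2 ≤ N ^ 2 := by
    have : 0 ≤ (a : ℝ) * b := mul_nonneg ha hb
    linarith
  have hD4 : D ^ 4 ≤ N ^ 3 := by
    have : |D| ^ 4 = D ^ 4 := by
      rw [← abs_pow]; exact abs_of_nonneg (by positivity)
    rw [← this]; exact hD
  set t : ℝ := D ^ 2 / N ^ 2 with ht
  have ht0 : 0 ≤ t := by positivity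
  have ht1 : t ≤ 1 := by
    rw [ht, div_le_one (by positivity)]; exact hDN
  have hNt : N ^ 2 * t = D ^ 2 := by rw [ht]; field_simp
  have hs : r * (N * (1 - t / 2 - t ^ 2 / 2) / 2) ≤ √(q * ((a : ℝ) + 1) * ((b : ℝ) + 1)) := by
    apply Real.le_sqrt_of_sq_le
    have e1 : (r * (N * (1 - t / 2 - t ^ 2 / 2) / 2)) ^ 2 =
        q * (N ^ 2 * (1 - t / 2 - t ^ 2 / 2) ^ 2 / 4) := by
      rw [← hrr]; ring
    rw [e1, mul_assoc]
    apply mul_le_mul_of_nonneg_left _ hq.le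
    have e2 : N ^ 2 * (1 - t / 2 - t ^ 2 / 2) ^ 2 ≤ N ^ 2 * (1 - t) :=
      mul_le_mul_of_nonneg_left (sq_le t ht0 ht1) (by positivity)
    have e3 : N ^ 2 * (1 - t) = 4 * ((a : ℝ) * b) := by
      rw [hab4, mul_sub, hNt]; ring
    nlinarith
  have hNt2 : N * t ^ 2 ≤ 1 := by
    have : N * t ^ 2 = D ^ 4 / N ^ 3 := by rw [ht]; field_simp
    rw [this, div_le_one (by positivity)]; exact hD4
  have hmu : mu q = (r + q) / (1 - q) := by
    unfold mu
    rw [← hr, ← hrr]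
    have : (1 : ℝ) - r ≠ 0 := by linarith
    have h3 : (1 : ℝ) - r ^ 2 ≠ 0 := by rw [hrr]; exact h1q.ne'
    field_simp
    ring
  have hpq : pq q a b = ((r + q) * N - r * (N * t) / 2) / (1 - q) := by
    unfold pq sg
    rw [hmu, ← hr, ← hNd, ← hDd, ht]
    field_simp
  rw [hpq]
  unfold gg
  have e4 : r / (2 * (1 - q)) = (r / 2) / (1 - q) := by
    rw [div_div]
  rw [e4, ← sub_div]
  apply div_le_div_of_nonneg_right _ h1q.le
  have e5 : (a : ℝ) + 1 + (b + 1) = N + 2 := by rw [hNd]; ring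
  rw [e5]
  have e6 : r * (N * t ^ 2) ≤ r * 1 := mul_le_mul_of_nonneg_left hNt2 hr0.le
  nlinarith

end Pool.Agent.H20.GL.GGP
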