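import Pool.Agent.H84.GL.Basic

/-!
# Horizontal increments on a row of the stationary model
-/

open MeasureTheory ProbabilityTheory
open scoped ENNReal

namespace Pool.Agent.H20.GL.HRO

open Pool.Agent.H84.GL Pool.Agent.H99.NS

/-- Exchange of the axes of the boundary model. -/
def swp (x : (ℕ → ℕ) × (ℕ → ℕ) × (ℕ × ℕ → ℕ)) : (ℕ → ℕ) × (ℕ → ℕ) × (ℕ × ℕ → ℕ) :=
  (x.2.1, x.1, tr x.2.2)

theorem measurable_swp : Measurable swp := by
  refine Measurable.prodMk (measurable_fst.comp measurable_snd)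
    (Measurable.prodMk measurable_fst ?_)
  exact measurable_tr.comp (measurable_snd.comp measurable_snd)

theorem map_swp (α β q : ℝ) : Measure.map swp (PB α β q) = PB β α q := by
  refine Measure.ext_of_lintegral _ fun f hf => ?_
  rw [lintegral_map hf measurable_swp]
  unfold PB
  have hf2 : Measurable (fun x => f (swp x)) := hf.comp measurable_swp
  rw [lintegral_prod _ hf2.aemeasurable, lintegral_prod _ hf.aemeasurable]
  have h1 : ∀ x : ℕ → ℕ, ∫⁻ y, f (swp (x, y)) ∂((P1 β).prod (P2 q)) =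
      ∫⁻ J, ∫⁻ W, f (J, x, W) ∂(P2 q) ∂(P1 β) := by
    intro x
    have hm : Measurable (fun y : (ℕ → ℕ) × (ℕ × ℕ → ℕ) => f (swp (x, y))) :=
      hf2.comp measurable_prodMk_left
    rw [lintegral_prod _ hm.aemeasurable]
    refine lintegral_congr fun J => ?_
    have hm2 : Measurable (fun W : ℕ × ℕ → ℕ => f (J, x, W)) :=
      hf.comp (measurable_prodMk_left.comp measurable_prodMk_left)
    exact lintegral_tr q (fun W => f (J, x, W)) hm2
  have h2 : ∀ x : ℕ → ℕ, ∫⁻ y, f (x, y) ∂((P1 α).prod (P2 q)) =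
      ∫⁻ J, ∫⁻ W, f (x, J, W) ∂(P2 q) ∂(P1 α) := by
    intro x
    have hm : Measurable (fun y : (ℕ → ℕ) × (ℕ × ℕ → ℕ) => f (x, y)) :=
      hf.comp measurable_prodMk_left
    rw [lintegral_prod _ hm.aemeasurable]
  simp only [h1, h2]
  have hm3 : Measurable (fun z : (ℕ → ℕ) × (ℕ → ℕ) => ∫⁻ W, f (z.2, z.1, W) ∂(P2 q)) := by
    have : Measurable (fun z : ((ℕ → ℕ) × (ℕ → ℕ)) × (ℕ × ℕ → ℕ) => f (z.1.2, z.1.1, z.2)) := by
      refine hf.comp ?_
      fun_prop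
    exact this.lintegral_prod_right
  rw [lintegral_lintegral_swap (f := fun x J => ∫⁻ W, f (J, x, W) ∂(P2 q)) hm3.aemeasurable]

theorem pf_HRO (h_VRO : T_VRO) (h_TRA : T_TRA) : T_HRO := by
  intro α β hα hα1 hβ hβ1 b
  have h := h_VRO β α hβ hβ1 hα hα1 b
  have hg : Measurable (fun (x : (ℕ → ℕ) × (ℕ → ℕ) × (ℕ × ℕ → ℕ)) (j : ℕ) =>
      GB x.1 x.2.1 x.2.2 b (j+1) - GB x.1 x.2.1 x.2.2 b j) := by
    refine measurable_pi_lambda _ fun j => ?_
    exact (measurable_GB b (j+1)).sub (measurable_GB b j)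
  rw [← map_swp α β (β * α), Measure.map_map hg measurable_swp] at h
  rw [mul_comm α β, ← h]
  congr 1
  funext x k
  show _ = GB x.2.1 x.1 (tr x.2.2) b (k+1) - GB x.2.1 x.1 (tr x.2.2) b k
  rw [(h_TRA x.1 x.2.1 x.2.2 (k+1) b).1, (h_TRA x.1 x.2.1 x.2.2 k b).1]

end Pool.Agent.H20.GL.HRO
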