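import Pool.Agent.H84.GL.Targets3
import Pool.Agent.H76.GL.MGS

/-!
# Sharp lower bound for the exponential moment of the horizontal exit part
-/

open MeasureTheory ProbabilityTheory
open scoped ENNReal

namespace Pool.Agent.H20.GL.MG2

open Pool.Agent.H84.GL Pool.Agent.H99.NS Pool.Agent.H76.GL

theorem pf_MG2 (h_MGF : T_MGF) (h_EXI : T_EXI) (h_PLS : T_PLS) : T_MG2 := by
  intro q hq hq1
  set r := √q with hr
  have hr0 : 0 < r := Real.sqrt_pos.2 hq
  have hr1 : r < 1 := by
    rw [hr, Real.sqrt_lt' one_pos]; simpa using hq1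
  have hrr : r ^ 2 = q := Real.sq_sqrt hq.le
  have hpsl := h_PLS r hr0 hr1
  have hlog : Real.log r < 0 := Real.log_neg hr0 hr1
  refine ⟨-(Real.log r), by linarith, ?_⟩
  intro lam hlam hlam'
  have h2 : r * Real.exp (lam / 2) < 1 := by
    have : r * Real.exp (lam / 2) = Real.exp (Real.log r + lam / 2) := by
      rw [Real.exp_add, Real.exp_log hr0]
    rw [this, Real.exp_lt_one_iff]
    linarith
  intro a
  have hqr : q / r = r := by rw [← hrr]; field_simp
  have hm := mgf_sym h_MGF q r lam hq hq1 hr0 hlam.le (by rw [hqr]; exact h2) h2 (a + 1) (a + 1)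
  rw [hqr] at hm
  have hlow := hpsl lam hlam.le h2
  refine le_trans ?_ (lint_GB_le h_EXI q _ lam a)
  rw [hm]
  apply ex_mono
  push_cast
  have hmu : mu q = r / (1 - r) := by unfold mu; rw [← hr]
  have hcf : cf q = cc r := by unfold cf; rw [← hr]
  rw [hmu, hcf]
  have ha : (0 : ℝ) ≤ (a : ℝ) + 1 := by positivity
  have := mul_le_mul_of_nonneg_left hlow ha
  linarith

end Pool.Agent.H20.GL.MG2
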