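import Pool.Agent.H84.GL.Basic

/-!
# Geometric law: stochastic monotonicity
-/

open MeasureTheory ProbabilityTheory
open scoped ENNReal

namespace Pool.Agent.H20.GL.MO1

open Pool.Agent.H84.GL Pool.Agent.H99.NS

theorem lintegral_geo (a : ℝ) (h0 : 0 ≤ a) (h1 : a < 1) (f : ℕ → ℝ≥0∞) :
    ∫⁻ k, f k ∂(geo a) = ∑' k : ℕ, ENNReal.ofReal ((1 - a) * a ^ k) * f k := by
  unfold geo
  rw [if_pos ⟨h0, h1⟩, lintegral_sum_measure]
  refine tsum_congr fun k => ?_
  rw [lintegral_smul_measure, lintegral_dirac' _ (measurable_from_top)]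
  rfl

theorem tail_sum (a : ℝ) (ha : 0 ≤ a) (ha1 : a < 1) (m : ℕ) :
    ∑' k : ℕ, (if m ≤ k then ENNReal.ofReal ((1 - a) * a ^ k) else 0) =
      ENNReal.ofReal (a ^ m) := by
  have h1 : (0 : ℝ) ≤ 1 - a := by linarith
  rw [← Summable.sum_add_tsum_nat_add' (f := fun k : ℕ => if m ≤ k then ENNReal.ofReal ((1 - a) * a ^ k) else 0)
    (k := m) ENNReal.summable]
  have z : ∑ i ∈ Finset.range m, (if m ≤ i then ENNReal.ofReal ((1 - a) * a ^ i) else 0) = 0 := by
    refine Finset.sum_eq_zero fun i hi => ?_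
    have := Finset.mem_range.1 hi
    rw [if_neg (by omega)]
  rw [z, zero_add]
  have e2 : ∀ i : ℕ, (if m ≤ i + m then ENNReal.ofReal ((1 - a) * a ^ (i + m)) else 0) =
      ENNReal.ofReal ((1 - a) * a ^ m * a ^ i) := by
    intro i
    rw [if_pos (by omega)]
    congr 1
    rw [pow_add]; ring
  simp only [e2]
  rw [← ENNReal.ofReal_tsum_of_nonneg (fun k => by positivity)
    ((summable_geometric_of_lt_one (by positivity) ha1).mul_left _), tsum_mul_left,
    tsum_geometric_of_lt_one (by positivity) ha1]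
  congr 1
  have : (1 : ℝ) - a ≠ 0 := by linarith
  field_simp

theorem telescope (f : ℕ → ℝ≥0∞) (hf : Monotone f) (k : ℕ) :
    f k = f 0 + ∑' j : ℕ, (if j < k then f (j+1) - f j else 0) := by
  have h : ∀ k : ℕ, f k = f 0 + ∑ j ∈ Finset.range k, (f (j+1) - f j) := by
    intro k
    induction k with
    | zero => simp
    | succ k ih =>
      rw [Finset.sum_range_succ, ← add_assoc, ← ih, add_tsub_cancel_of_le (hf (Nat.le_succ k))]
  rw [tsum_eq_sum (s := Finset.range k) (fun j hj => by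
    rw [if_neg (by simpa using hj)])]
  rw [h k]
  congr 1
  exact Finset.sum_congr rfl fun j hj => by rw [if_pos (Finset.mem_range.1 hj)]

theorem formula (a : ℝ) (h0 : 0 ≤ a) (h1 : a < 1) (f : ℕ → ℝ≥0∞) (hf : Monotone f) :
    ∫⁻ k, f k ∂(geo a) =
      f 0 + ∑' j : ℕ, (f (j+1) - f j) * ENNReal.ofReal (a ^ (j+1)) := by
  rw [lintegral_geo a h0 h1]
  have e : ∀ k : ℕ, ENNReal.ofReal ((1 - a) * a ^ k) * f k =
      (if 0 ≤ k then ENNReal.ofReal ((1 - a) * a ^ k) else 0) * f 0 +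
      ∑' j : ℕ, (f (j+1) - f j) * (if j + 1 ≤ k then ENNReal.ofReal ((1 - a) * a ^ k) else 0) := by
    intro k
    conv_lhs => rw [telescope f hf k]
    rw [mul_add, if_pos (Nat.zero_le k), ← ENNReal.tsum_mul_left]
    congr 1
    refine tsum_congr fun j => ?_
    by_cases h : j < k
    · rw [if_pos h, if_pos (by omega), mul_comm]
    · rw [if_neg h, if_neg (by omega), mul_zero, mul_zero]
  simp only [e]
  rw [ENNReal.tsum_add, ENNReal.tsum_mul_right, tail_sum a h0 h1 0, ENNReal.tsum_comm]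
  congr 1
  · simp
  · refine tsum_congr fun j => ?_
    rw [ENNReal.tsum_mul_left, tail_sum a h0 h1 (j+1)]

theorem pf_MO1 : T_MO1 := by
  intro a b ha hab hb f hf
  rw [formula a ha (lt_of_le_of_lt hab hb) f hf, formula b (ha.trans hab) hb f hf]
  gcongr

end Pool.Agent.H20.GL.MO1
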