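import Pool.Agent.H84.GL.Basic

/-!
# The first coordinate and the others
-/

open MeasureTheory ProbabilityTheory
open scoped ENNReal

namespace Pool.Agent.H20.GL.SH1

open Pool.Agent.H84.GL Pool.Agent.H99.NS

/-- Put a value in front of a sequence. -/
def cons1 (p : ℕ × (ℕ → ℕ)) : ℕ → ℕ
  | 0 => p.1
  | (n+1) => p.2 n

theorem measurable_cons1 : Measurable cons1 := by
  refine measurable_pi_lambda _ fun n => ?_
  cases n with
  | zero => exact measurable_fst
  | succ n => exact (measurable_pi_apply n).comp measurable_snd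

theorem map_cons1 (a : ℝ) : Measure.map cons1 ((geo a).prod (P1 a)) = P1 a := by
  unfold P1
  refine Measure.eq_infinitePi (fun _ : ℕ => geo a) fun s t ht => ?_
  have hms : MeasurableSet (Set.pi (s : Set ℕ) t) :=
    MeasurableSet.pi s.countable_toSet fun i _ => ht i
  rw [Measure.map_apply measurable_cons1 hms]
  classical
  set s' : Finset ℕ := s.preimage Nat.succ (Nat.succ_injective.injOn) with hs'
  have hpre : cons1 ⁻¹' (Set.pi (s : Set ℕ) t) =
      (if 0 ∈ s then t 0 else Set.univ) ×ˢ (Set.pi (s' : Set ℕ) (fun n => t (n+1))) := by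
    ext p
    constructor
    · intro h
      refine ⟨?_, ?_⟩
      · by_cases h0 : 0 ∈ s
        · rw [if_pos h0]; exact h 0 h0
        · rw [if_neg h0]; trivial
      · intro n hn
        have hn' : n + 1 ∈ s := by
          have := Finset.mem_coe.1 hn
          rw [hs', Finset.mem_preimage] at this
          exact this
        exact h (n+1) hn'
    · rintro ⟨h1, h2⟩ n hn
      cases n with
      | zero =>
        have h0 : 0 ∈ s := hn
        rw [if_pos h0] at h1; exact h1
      | succ n =>
        have : n ∈ s' := by
          rw [hs', Finset.mem_preimage]; exact hn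
        exact h2 n this
  rw [hpre, Measure.prod_prod, Measure.infinitePi_pi _ (fun i _ => ht (i+1))]
  have hsum : ∏ i ∈ s, (geo a) (t i) =
      (if 0 ∈ s then (geo a) (t 0) else 1) * ∏ n ∈ s', (geo a) (t (n+1)) := by
    have h2 : ∏ n ∈ s', (geo a) (t (n+1)) = ∏ n ∈ s.filter (fun n => n ≠ 0), (geo a) (t n) := by
      refine Finset.prod_bij (fun n _ => n + 1) ?_ ?_ ?_ ?_
      · intro n hn
        rw [hs', Finset.mem_preimage] at hn
        exact Finset.mem_filter.2 ⟨hn, Nat.succ_ne_zero n⟩
      · intro x _ y _ h; omega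
      · intro n hn
        obtain ⟨hn1, hn2⟩ := Finset.mem_filter.1 hn
        obtain ⟨m, rfl⟩ := Nat.exists_eq_succ_of_ne_zero hn2
        refine ⟨m, ?_, rfl⟩
        rw [hs', Finset.mem_preimage]; exact hn1
      · intro n _; rfl
    rw [h2, ← Finset.prod_filter_mul_prod_filter_not s (fun n => n = 0)]
    congr 1
    by_cases h0 : 0 ∈ s
    · rw [if_pos h0]
      have : s.filter (fun n => n = 0) = {0} := by
        ext n; simp only [Finset.mem_filter, Finset.mem_singleton]
        constructor
        · exact fun h => h.2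
        · rintro rfl; exact ⟨h0, rfl⟩
      rw [this, Finset.prod_singleton]
    · rw [if_neg h0]
      have : s.filter (fun n => n = 0) = ∅ := by
        ext n; simp only [Finset.mem_filter, Finset.notMem_empty, iff_false]
        rintro ⟨h, rfl⟩; exact h0 h
      rw [this, Finset.prod_empty]
  rw [hsum]
  congr 1
  by_cases h0 : 0 ∈ s
  · rw [if_pos h0, if_pos h0]
  · rw [if_neg h0, if_neg h0, measure_univ]

theorem pf_SH1 : T_SH1 := by
  intro a
  have hm : Measurable (fun x : ℕ → ℕ => (x 0, fun n => x (n+1))) := by
    refine (measurable_pi_apply 0).prodMk (measurable_pi_lambda _ fun n => ?_)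
    exact measurable_pi_apply (n+1)
  conv_lhs => rw [← map_cons1 a]
  rw [Measure.map_map hm measurable_cons1]
  have : (fun x : ℕ → ℕ => (x 0, fun n => x (n+1))) ∘ cons1 = id := by
    funext p; rfl
  rw [this, Measure.map_id]

end Pool.Agent.H20.GL.SH1
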