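import Pool.Agent.H84.GL.Basic

/-!
# The first column and the others
-/

open MeasureTheory ProbabilityTheory
open scoped ENNReal

namespace Pool.Agent.H20.GL.SH2

open Pool.Agent.H84.GL Pool.Agent.H99.NS

/-- Put a column in front of an array. -/
def glue (x : (ℕ → ℕ) × (ℕ × ℕ → ℕ)) : ℕ × ℕ → ℕ
  | (0, j) => x.1 j
  | (i+1, j) => x.2 (i, j)

theorem measurable_glue : Measurable glue := by
  refine measurable_pi_lambda _ fun p => ?_
  obtain ⟨i, j⟩ := p
  cases i with
  | zero => exact (measurable_pi_apply j).comp measurable_fst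
  | succ i => exact (measurable_pi_apply (i, j)).comp measurable_snd

theorem map_glue (a : ℝ) : Measure.map glue ((P1 a).prod (P2 a)) = P2 a := by
  conv_rhs => unfold P2
  refine Measure.eq_infinitePi (fun _ : ℕ × ℕ => geo a) fun s t ht => ?_
  have hms : MeasurableSet (Set.pi (s : Set (ℕ × ℕ)) t) :=
    MeasurableSet.pi s.countable_toSet fun i _ => ht i
  rw [Measure.map_apply measurable_glue hms]
  classical
  have hj0 : Function.Injective (fun j : ℕ => ((0 : ℕ), j)) := by
    intro x y h; simpa using h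
  have hj1 : Function.Injective (fun p : ℕ × ℕ => (p.1 + 1, p.2)) := by
    intro x y h
    simp only [Prod.mk.injEq, add_left_inj] at h
    exact Prod.ext h.1 h.2
  set s0 : Finset ℕ := s.preimage (fun j : ℕ => ((0 : ℕ), j)) hj0.injOn with hs0
  set s1 : Finset (ℕ × ℕ) := s.preimage (fun p : ℕ × ℕ => (p.1 + 1, p.2)) hj1.injOn with hs1
  have hpre : glue ⁻¹' (Set.pi (s : Set (ℕ × ℕ)) t) =
      (Set.pi (s0 : Set ℕ) (fun j => t (0, j))) ×ˢ
        (Set.pi (s1 : Set (ℕ × ℕ)) (fun p => t (p.1 + 1, p.2))) := by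
    ext x
    constructor
    · intro h
      refine ⟨?_, ?_⟩
      · intro j hj
        have hj' : ((0 : ℕ), j) ∈ s := by
          have := Finset.mem_coe.1 hj
          rw [hs0, Finset.mem_preimage] at this
          exact this
        exact h (0, j) hj'
      · rintro ⟨i, j⟩ hp
        have hp' : (i + 1, j) ∈ s := by
          have := Finset.mem_coe.1 hp
          rw [hs1, Finset.mem_preimage] at this
          exact this
        exact h (i+1, j) hp'
    · rintro ⟨h1, h2⟩ ⟨i, j⟩ hn
      cases i with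
      | zero =>
        have : j ∈ s0 := by
          rw [hs0, Finset.mem_preimage]; exact hn
        exact h1 j this
      | succ i =>
        have : (i, j) ∈ s1 := by
          rw [hs1, Finset.mem_preimage]; exact hn
        exact h2 (i, j) this
  have e1 : (P1 a) (Set.pi (s0 : Set ℕ) (fun j => t (0, j))) = ∏ j ∈ s0, (geo a) (t (0, j)) := by
    unfold P1
    exact Measure.infinitePi_pi (fun _ : ℕ => geo a) (fun j _ => ht (0, j))
  have e2 : (P2 a) (Set.pi (s1 : Set (ℕ × ℕ)) (fun p => t (p.1 + 1, p.2))) =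
      ∏ p ∈ s1, (geo a) (t (p.1 + 1, p.2)) := by
    unfold P2
    exact Measure.infinitePi_pi (fun _ : ℕ × ℕ => geo a) (fun p _ => ht (p.1 + 1, p.2))
  rw [hpre, Measure.prod_prod, e1, e2,
    ← Finset.prod_filter_mul_prod_filter_not s (fun p => p.1 = 0)]
  congr 1
  · refine Finset.prod_bij (fun j _ => (0, j)) ?_ ?_ ?_ ?_
    · intro j hj
      rw [hs0, Finset.mem_preimage] at hj
      exact Finset.mem_filter.2 ⟨hj, rfl⟩
    · intro x _ y _ h; exact hj0 h
    · rintro ⟨i, j⟩ hn
      obtain ⟨hn1, hn2⟩ := Finset.mem_filter.1 hn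
      simp only at hn2
      subst hn2
      refine ⟨j, ?_, rfl⟩
      rw [hs0, Finset.mem_preimage]; exact hn1
    · intro n _; rfl
  · refine Finset.prod_bij (fun p _ => (p.1 + 1, p.2)) ?_ ?_ ?_ ?_
    · intro p hp
      rw [hs1, Finset.mem_preimage] at hp
      exact Finset.mem_filter.2 ⟨hp, Nat.succ_ne_zero _⟩
    · intro x _ y _ h; exact hj1 h
    · rintro ⟨i, j⟩ hn
      obtain ⟨hn1, hn2⟩ := Finset.mem_filter.1 hn
      obtain ⟨m, rfl⟩ := Nat.exists_eq_succ_of_ne_zero hn2
      refine ⟨(m, j), ?_, rfl⟩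
      rw [hs1, Finset.mem_preimage]; exact hn1
    · intro n _; rfl

theorem pf_SH2 : T_SH2 := by
  intro a
  have hm : Measurable (fun W : ℕ × ℕ → ℕ => ((fun j => W (0, j)), hs 1 W)) := by
    refine Measurable.prodMk (measurable_pi_lambda _ fun n => ?_) (measurable_hs 1)
    exact measurable_pi_apply (0, n)
  conv_lhs => rw [← map_glue a]
  rw [Measure.map_map hm measurable_glue]
  have : (fun W : ℕ × ℕ → ℕ => ((fun j => W (0, j)), hs 1 W)) ∘ glue = id := by
    funext p; rfl
  rw [this, Measure.map_id]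

end Pool.Agent.H20.GL.SH2
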