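import Pool.Agent.H84.GL.Targets2

/-!
# The passage time with and without the starting point
-/

open MeasureTheory ProbabilityTheory
open scoped ENNReal

namespace Pool.Agent.H20.GL.TLB

open Pool.Agent.H84.GL Pool.Agent.H99.NS

theorem Gq_eq (w : ℕ → ℕ → ℕ) (a b : ℕ) :
    Gq w a b = Gq (fun i j => if i = 0 ∧ j = 0 then 0 else w i j) a b + w 0 0 := by
  induction a generalizing b with
  | zero =>
    induction b with
    | zero => simp [Gq]
    | succ j ih => simp only [Gq]; rw [ih]; simp; omega
  | succ i ihi =>
    induction b with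
    | zero => simp only [Gq]; rw [ihi 0]; simp; omega
    | succ j ihj =>
      simp only [Gq]
      rw [ihi (j+1), ihj]
      simp
      omega

theorem LB_eq (ω : Env) (u : Site) (a b : ℕ) : LB (arr ω u) a b = Tq ω u a b + ω u := by
  unfold LB Tq arr
  rw [Gq_eq]
  congr 1
  simp [qs]

theorem pf_TLB : T_TLB := by
  intro ω u a b
  rw [LB_eq]
  exact ⟨Nat.le_add_right _ _, le_refl _⟩

end Pool.Agent.H20.GL.TLB
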